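import Pool.Agent.H.MP_d57a60.A

set_option autoImplicit false
open Set Filter Topology TopologicalSpace

namespace Pool.Agent.H.MP_fbd347
open MP_e9bccb (LS toU ofU GN)

def Gd {ι M : Type} (D : Set (ι → M)) : Set (ι → M) :=
  {p | ∀ B : Set ι, B.Countable → ∃ h ∈ D, EqOn h p B}

theorem osc {ι M : Type} [PseudoMetricSpace M] {D : Set (ι → M)} (hD : Dense D)
    {F : (ι → M) → ℝ} (hF : ContinuousOn F D) {p : ι → M} (hp : p ∈ Gd D) :
    ∃ y, Tendsto F (𝓝[D] p) (𝓝 y) := by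
  classical
  have := mem_closure_iff_nhdsWithin_neBot.1 (hD p)
  refine cauchy_map_iff_exists_tendsto.1 (Metric.cauchy_iff.2 ⟨inferInstance, fun ε e => ?_⟩)
  by_contra! c
  have : ∀ x ∈ D, ∃ (S : Finset ι) (u : ι → Set M), (∀ i ∈ S, IsOpen (u i) ∧ x i ∈ u i) ∧
      ∀ k ∈ D, k ∈ (S : Set ι).pi u → dist (F k) (F x) < ε / 4 := fun x a => by
    obtain ⟨O, O1, O2, O3⟩ := mem_nhdsWithin.1 (hF x a (Metric.ball_mem_nhds _
      (by positivity : 0 < ε / 4)))
    obtain ⟨S, u, h1, h2⟩ := isOpen_pi_iff.1 O1 x O2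
    exact ⟨S, u, h1, fun k b l => O3 ⟨h2 l, b⟩⟩
  choose! S u h1 h2 using this
  obtain ⟨a, a1, a2⟩ := exists_seq_of_forall_finset_exists (fun a : ℕ × (Bool → ι → M) =>
    (∀ b, a.2 b ∈ D) ∧ ε ≤ dist (F (a.2 true)) (F (a.2 false))) (fun a a' => a.1 < a'.1 ∧
      ∀ b b', ∀ i ∈ S (a.2 b), dist (a'.2 b' i) (p i) < 1 / ((a'.1 : ℝ) + 1)) fun s _ => by
    obtain ⟨k, hk⟩ := (s.eventually_all.2 fun a _ => eventually_gt_atTop a.1).exists
    obtain ⟨_, ⟨x, x1, rfl⟩, _, ⟨y, y1, rfl⟩, l⟩ := c _ (image_mem_map (inter_mem_nhdsWithin D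
      (s.eventually_all.2 fun a _ => eventually_all.2 fun b => (S (a.2 b)).eventually_all.2
        fun i _ => (continuous_apply i).tendsto p (Metric.ball_mem_nhds _
          (Nat.one_div_pos_of_nat (n := k))))))
    exact ⟨(k, fun b => bif b then x else y), ⟨Bool.forall_bool.2 ⟨y1.1, x1.1⟩, l⟩, fun a m =>
      ⟨hk a m, fun b => Bool.forall_bool.2 ⟨y1.2 a m b, x1.2 a m b⟩⟩⟩
  have mo : StrictMono fun n => (a n).1 := fun n m l => (a2 n m l).1
  let B := ⋃ n, ⋃ b, (S ((a n).2 b) : Set ι)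
  obtain ⟨h, hh, hB⟩ := hp B (countable_iUnion fun _ => countable_iUnion fun _ =>
    Finset.countable_toSet _)
  have o : ∀ x ∈ D, IsOpen ((S x : Set ι).pi (u x)) := fun x l =>
    isOpen_set_pi (S x).finite_toSet fun i m => (h1 x l i m).1
  have : ∀ b, ∀ᶠ n in atTop, dist (F ((a n).2 b)) (F h) < ε / 2 := fun b => by
    have : Tendsto (fun n => B.piecewise ((a n).2 b) h) atTop (𝓝 h) := tendsto_pi_nhds.2 fun i => by
      by_cases l : i ∈ B
      · simp only [piecewise_eq_of_mem _ _ _ l, hB l]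
        obtain ⟨m, b', l⟩ := mem_iUnion₂.1 l
        exact tendsto_iff_dist_tendsto_zero.2 (squeeze_zero' (.of_forall fun _ => dist_nonneg)
          ((eventually_gt_atTop m).mono fun n r => ((a2 m n r).2 b' b i l).le.trans
            (Nat.one_div_le_one_div mo.le_apply)) tendsto_one_div_add_atTop_nhds_zero_nat)
      · simp only [piecewise_eq_of_notMem _ _ _ l, tendsto_const_nhds]
    filter_upwards [this ((o h hh).mem_nhds fun i l => (h1 h hh i l).2)] with n hn
    have d := (a1 n).1 b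
    obtain ⟨k, k1, k2, k3⟩ := hD.exists_mem_open ((o h hh).inter (o _ d)) ⟨_, hn, fun i l =>
      mem_of_eq_of_mem (piecewise_eq_of_mem B _ _ (mem_iUnion₂.2 ⟨n, b, l⟩)) (h1 _ d i l).2⟩
    linarith [dist_triangle_left (F ((a n).2 b)) (F h) (F k), h2 _ hh k k1 k2, h2 _ d k k1 k3]
  obtain ⟨n, n1, n2⟩ := ((this true).and (this false)).exists
  linarith [(a1 n).2, dist_triangle_right (F ((a n).2 true)) (F ((a n).2 false)) (F h)]

theorem ext {ι M : Type} [PseudoMetricSpace M] {D : Set (ι → M)} (hD : Dense D) {F : D → ℝ}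
    (hF : Continuous F) : ∃ G : (ι → M) → ℝ, ContinuousOn G (Gd D) ∧ ∀ x : D, G x = F x := by
  have e := Subtype.val_injective.extend_apply F 0
  have : ContinuousOn (Function.extend Subtype.val F 0) D :=
    continuousOn_iff_continuous_restrict.2 (hF.congr fun x => (e x).symm)
  exact ⟨_, continuousOn_extendFrom (fun x _ => hD x) fun _ => osc hD this, fun x =>
    (extendFrom_extends this x x.2).trans (e x)⟩

theorem den {X : Type} [TopologicalSpace X] [T35Space X] : Dense {f : X → ℝ | Continuous f} :=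
  fun a => by
  classical
  have : ∀ s : Finset X, ∃ f : X → ℝ, Continuous f ∧ ∀ x ∈ s, f x = a x := fun s => by
    induction s using Finset.induction with
    | empty => exact ⟨0, continuous_zero, by simp⟩
    | insert x s hx ih =>
      obtain ⟨g, g1, g2⟩ := ih
      obtain ⟨u, u1, u2, u3⟩ := CompletelyRegularSpace.completely_regular x _
        s.finite_toSet.isClosed hx
      exact ⟨fun y => g y * u y + a x * (1 - u y), by fun_prop, Finset.forall_mem_insert .. |>.2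
        ⟨by simp [u2], fun y l => by simp [u3 l, g2 y l]⟩⟩
  choose f f1 f2 using this
  exact mem_closure_of_tendsto (b := atTop) (tendsto_pi_nhds.2 fun x =>
    tendsto_nhds_of_eventually_eq ((eventually_ge_atTop {x}).mono fun s l => f2 s x (l (by simp))))
      (.of_forall f1)

abbrev C (Z : Type) [TopologicalSpace Z] := {g : Z → ℝ // Continuous g}

abbrev Up (Z : Type) [TopologicalSpace Z] : Set (C Z → ℝ) :=
  closure (range fun (y : Z) (g : C Z) => g.1 y)

theorem gd {Z : Type} [TopologicalSpace Z] {v : C Z → ℝ} (hv : v ∈ Up Z) {s : Set (C Z)}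
    (hs : s.Countable) : ∃ y, ∀ g ∈ s, g.1 y = v g := by
  by_contra! c
  have := hs.to_subtype
  let := metrizableSpaceMetric (s → ℝ)
  let G := fun w : C Z → ℝ => dist (fun g : s => w g) fun g => v g
  have G1 : Continuous G := Continuous.dist (by fun_prop) continuous_const
  have G2 : ∀ y, G (·.1 y) ≠ 0 := fun y l =>
    let ⟨g, a, b⟩ := c y
    b (congrFun (dist_eq_zero.1 l) ⟨g, a⟩)
  have := (isClosed_eq (G1.mul (continuous_apply ⟨fun y => (G (·.1 y))⁻¹, (G1.comp (continuous_pi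
    fun g => g.2)).inv₀ G2⟩)) (continuous_const (y := 1))).closure_subset_iff.2
      (range_subset_iff.2 fun y => mul_inv_cancel₀ (G2 y)) hv
  simp [G] at this

theorem up {ι : Type} {D E : Set (ι → ℝ)} (hD : Dense D) (h : LS E) (h1 : D ⊆ E) (h2 : E ⊆ Gd D) :
    LS (Up D) := by
  choose G G1 G2 using fun F : C D => ext hD F.2
  have c : ContinuousOn (fun p F => G F p) E := continuousOn_pi.2 fun F => (G1 F).mono h2
  convert h.img c
  refine Subset.antisymm (fun v hv => by_contra fun e => ?_) (image_subset_iff.2 fun p e => ?_)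
  · obtain ⟨r, r1, r2⟩ := (MP_d57a60.lind (h.img c)).elim_countable_subcover
      (fun F => {w | w F ≠ v F}) (fun F => isOpen_ne_fun (continuous_apply F) continuous_const)
        fun w l => mem_iUnion.2 (Function.ne_iff.1 (ne_of_mem_of_not_mem l e))
    obtain ⟨y, hy⟩ := gd hv r1
    obtain ⟨F, a, b⟩ := mem_iUnion₂.1 (r2 ⟨y, h1 y.2, rfl⟩)
    exact b ((G2 F y).trans (hy F a))
  · have := mem_closure_iff_nhdsWithin_neBot.1 (hD p)
    exact mem_closure_of_tendsto ((c p e).mono h1) (eventually_mem_nhdsWithin.mono fun y l =>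
      ⟨⟨y, l⟩, funext fun F => (G2 F ⟨y, l⟩).symm⟩)

theorem iff {Z : Type} [TopologicalSpace Z] [RegularSpace Z] {V : Set Z} : (∃ F : Set (Set Z),
    F.Countable ∧ ∀ x ∈ V, ∃ K, IsCompact K ∧ x ∈ K ∧ K ⊆ V ∧ ∀ U, IsOpen U → K ⊆ U →
      ∃ A ∈ F, K ⊆ A ∧ A ⊆ U ∩ V) ↔ LS V := by
  constructor
  · rintro ⟨F, F1, F2⟩
    obtain ⟨N, hN⟩ := (F1.insert ∅).exists_eq_range (insert_nonempty _ _)
    refine ⟨N, fun z hz G k => ?_⟩
    obtain ⟨K, k1, k2, k3, k4⟩ := F2 z hz
    by_contra e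
    obtain ⟨s, s1, t, t1, e⟩ := Filter.disjoint_iff.1 (k1.disjoint_nhdsSet_left.2 fun w l =>
      disjoint_iff.2 (not_neBot.1 fun a : (𝓝 w ⊓ G).NeBot => e ⟨w, k3 l, a⟩))
    obtain ⟨U, U1, U2, U3⟩ := mem_nhdsSet_iff_exists.1 s1
    obtain ⟨A, a1, a2, a3⟩ := k4 U U1 U2
    obtain ⟨n, rfl⟩ : A ∈ range N := hN ▸ mem_insert_of_mem _ a1
    exact (inf_neBot_iff.1 (k n (a2 k2)) t1 (fun x l => U3 (a3 l).1)).not_disjoint e.symm
  · intro h
    rw [← Subtype.range_coe (s := V)] at h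
    obtain ⟨N, hN⟩ := (h.pre IsInducing.subtypeVal).gn
    refine ⟨_, countable_range fun n => Subtype.val '' N n, fun x l => ?_⟩
    obtain ⟨K, k1, k2, k3⟩ := hN ⟨x, l⟩
    refine ⟨_, k1.image continuous_subtype_val, ⟨_, k2, rfl⟩, Subtype.coe_image_subset _ _,
      fun U a b => ?_⟩
    obtain ⟨n, n1, n2⟩ := k3 _ (a.preimage continuous_subtype_val) (image_subset_iff.1 b)
    exact ⟨_, ⟨n, rfl⟩, image_mono n1, image_subset_iff.2 fun y e => ⟨n2 e, y.2⟩⟩

end Pool.Agent.H.MP_fbd347
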