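import Pool.Agent.H.MP_fbd347.A

set_option autoImplicit false
open Set Filter Topology TopologicalSpace unitInterval Uniformity

namespace Pool.Agent.H.MP_fbd347
open MP_e9bccb (LS toU ofU GN)

abbrev J := Option ℕ × (ℕ → Bool)

def Un {M : Type} [UniformSpace M] (y : J → M) : Prop :=
  Tendsto (fun q : ℕ × (ℕ → Bool) => (y (none, q.2), y (some q.1, q.2))) (atTop ×ˢ ⊤) (𝓤 M)

theorem unI {M : Type} [PseudoMetricSpace M] {y : J → M} : Un y ↔ ∀ k : ℕ, ∀ᶠ c in atTop, ∀ γ,
    dist (y (none, γ)) (y (some c, γ)) ≤ 1 / ((k : ℝ) + 1) := by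
  simp only [Un, Metric.uniformity_basis_dist_le_inv_nat_succ.tendsto_right_iff, prod_top,
    eventually_comap, true_imp_iff, mem_ofPred_eq, Prod.forall, forall_comm (α := ℕ → Bool),
    forall_eq_apply_imp_iff, forall_eq]

inductive T
  | leaf
  | node (c : ℕ → T) (l : ℕ → I) (y : {y : J → I // Un y})

def T.ch : T → Set T
  | leaf => ∅
  | node c _ _ => range c

noncomputable def T.lab : T → T → I
  | leaf => 0
  | node c l _ => Function.extend c l 0

def T.y : T → {y : J → I // Un y}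
  | leaf => ⟨0, tendsto_const_uniformity⟩
  | node _ _ y => y

theorem asy (t : T) : ∀ s ∈ t.ch, t ∉ s.ch := by
  induction t with
  | leaf => exact fun _ => False.elim
  | node c l y ih =>
    rintro _ ⟨n, rfl⟩ e
    exact ih n _ e ⟨n, rfl⟩

open Classical in
noncomputable def v : T ⊕ J → T → I
  | .inl t => fun s => if s ∈ t.ch then t.lab s else s.lab t
  | .inr a => fun s => s.y.1 a

theorem lab {c : ℕ → T} (g : T → I) (y) (n : ℕ) : (T.node c (g ∘ c) y).lab (c n) = g (c n) :=
  Function.FactorsThrough.extend_apply (fun _ _ e => congrArg g e) _ _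

theorem gdc {ι M : Type} [TopologicalSpace M] {D : Set (ι → M)} : Gd D ⊆ closure D :=
  fun _ e => mem_closure_iff_nhds.2 fun _ a => by
  obtain ⟨S, S1, t, t1, t2⟩ := Filter.mem_pi.1 (nhds_pi.ge a)
  obtain ⟨h, h1, h2⟩ := e S S1.countable
  exact ⟨h, t2 fun i l => h2 l ▸ mem_of_mem_nhds (t1 i), h1⟩

theorem gdv (p : T → I) : p ∈ Gd (range v) := fun B e => by
  obtain ⟨c, hc⟩ := (e.insert .leaf).exists_eq_range (insert_nonempty _ _)
  refine ⟨_, ⟨.inl (.node c (p ∘ c) T.leaf.y), rfl⟩, fun s l => ?_⟩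
  obtain ⟨n, rfl⟩ := hc.le (.inr l)
  exact (if_pos ⟨n, rfl⟩).trans (lab p _ n)

abbrev X := range v

noncomputable def j (a : J) : X := ⟨_, .inr a, rfl⟩

def E : Set (X → ℝ) := {f | (∃ r, ∀ x, |f x| ≤ r) ∧ Un (f ∘ j)}

theorem lsE : LS E := by
  let N : ℕ × ℕ → Set (X → ℝ) := fun k => {f | (∀ x, |f x| ≤ k.2) ∧ ∀ c ≥ k.2, ∀ γ,
    dist (f (j (none, γ))) (f (j (some c, γ))) ≤ 1 / ((k.1 : ℝ) + 1)}
  have N1 : ∀ k, IsClosed (N k) := fun k => by
    simp only [N, ofPred_and, ofPred_forall]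
    exact (isClosed_iInter fun _ => isClosed_le (by fun_prop) continuous_const).inter
      (isClosed_iInter fun _ => isClosed_iInter fun _ => isClosed_iInter fun _ =>
        isClosed_le (by fun_prop) continuous_const)
  refine ofU N fun f ⟨⟨r, h1⟩, h2⟩ U k => ?_
  choose m hm using fun n => ((tendsto_natCast_atTop_atTop.eventually_ge_atTop r).and
    (eventually_forall_ge_atTop.2 (unI.1 h2 n))).exists
  have k := fun n => k (n, m n) ⟨fun x => (h1 x).trans (hm n).1, (hm n).2⟩
  obtain ⟨w, -, hw⟩ := (isCompact_univ_pi fun _ : X => isCompact_Icc).ultrafilter_le_nhds' U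
    (mem_of_superset (k 0) fun g e x _ => abs_le.1 (e.1 x))
  have := fun n => (N1 _).mem_of_tendsto (f := id) hw (k n)
  exact ⟨w, ⟨⟨_, (this 0).1⟩, unI.2 fun n => eventually_atTop.2 ⟨_, (this n).2⟩⟩, hw⟩

theorem inE {f : X → ℝ} (h : Continuous f) : f ∈ E := by
  obtain ⟨G, G1, G2⟩ := ext (fun p => gdc (gdv p)) h
  have G1 : Continuous G := continuousOn_univ.1 (G1.mono fun p _ => gdv p)
  obtain ⟨r, hr⟩ := isCompact_univ.exists_bound_of_continuousOn G1.continuousOn
  refine ⟨⟨r, fun x => G2 x ▸ hr x trivial⟩, ?_⟩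
  have : Un fun a => v (.inr a) := by
    rw [Un, Pi.uniformity]
    exact tendsto_iInf.2 fun s => tendsto_comap_iff.2 s.y.2
  exact (Tendsto.comp (CompactSpace.uniformContinuous_of_continuous G1) this).congr fun q =>
    Prod.ext (G2 (j (_, q.2))) (G2 (j (_, q.2)))

theorem co (s : T) : Continuous fun x : X => (x.1 s : ℝ) :=
  continuous_subtype_val.comp ((continuous_apply s).comp continuous_subtype_val)

theorem gdE : E ⊆ Gd {f : X → ℝ | Continuous f} := fun f ⟨⟨r, h1⟩, h2⟩ B e => by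
  let g : ℝ → I := fun t => projIcc 0 1 zero_le_one (1 / 2 + t / (2 * (|r| + 1)))
  have g1 : UniformContinuous g := (LipschitzWith.projIcc _).uniformContinuous.comp
    (uniformContinuous_const.add (uniformContinuous_div_const' _))
  have g2 : ∀ x, 2 * (|r| + 1) * (g (f x) - 1 / 2) = f x := fun x => by
    have := abs_le.1 (abs_div (f x) _ ▸ (div_le_iff₀ (by positivity)).2 (by
      rw [abs_of_pos (a := 2 * (|r| + 1)) (by positivity)]
      linarith [h1 x, le_abs_self r]) : |f x / (2 * (|r| + 1))| ≤ 1 / 2)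
    rw [show g (f x) = ⟨_, _⟩ from projIcc_of_mem _ ⟨by linarith, by linarith⟩]
    field_simp
    ring
  obtain ⟨c, hc⟩ := (((e.image fun x => x.2.choose).preimage Sum.inl_injective).insert
    .leaf).exists_eq_range (insert_nonempty _ _)
  let s := T.node c ((fun t => g (f ⟨_, .inl t, rfl⟩)) ∘ c) ⟨g ∘ f ∘ j, Tendsto.comp g1 h2⟩
  refine ⟨fun x => 2 * (|r| + 1) * (x.1 s - 1 / 2), continuous_const.mul ((co s).sub
    continuous_const), fun x l => Eq.trans ?_ (g2 x)⟩
  have a := x.2.choose_spec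
  have b := mem_image_of_mem (fun x : X => x.2.choose) l
  generalize x.2.choose = p at a b
  obtain rfl : ⟨_, p, rfl⟩ = x := Subtype.ext a
  refine congrArg (fun z : I => 2 * (|r| + 1) * ((z : ℝ) - 1 / 2)) ?_
  obtain t | t := p
  · obtain ⟨n, rfl⟩ := hc.le (.inr b)
    exact (if_neg (asy s _ ⟨n, rfl⟩)).trans (lab _ _ n)
  · rfl

theorem pos : LS (Up (C X)) := up den lsE (fun _ => inE) gdE

theorem neg : ¬LS (Up (C (C X))) := fun h => by
  classical
  let := metrizableSpaceMetric (Option ℕ → I)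
  let p : ℝ → I := projIcc 0 1 zero_le_one
  have p1 : Continuous p := continuous_projIcc
  let χ : Option ℕ → I := fun o => o.elim 1 fun _ => 0
  let R : C X → (ℕ → Bool) → Option ℕ → I := fun g γ o => p (g.1 (j (o, γ)))
  have R1 : ∀ g γ, dist (R g γ) χ ≠ 0 := fun g γ e => by
    have e := congrFun (dist_eq_zero.1 e)
    obtain ⟨c, hc⟩ := (unI.1 (show Un (p ∘ g.1 ∘ j) from Tendsto.comp (LipschitzWith.projIcc
      zero_le_one).uniformContinuous (inE g.2).2) 1).exists
    have := (congrArg₂ dist (e none) (e (some c))).ge.trans (hc γ)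
    norm_num [χ, Subtype.dist_eq] at this
  let Φ : (ℕ → Bool) → C (C X) := fun γ => ⟨fun g => (dist (R g γ) χ)⁻¹, .inv₀ (.dist
    (continuous_pi fun o => p1.comp ((continuous_apply _).comp continuous_subtype_val))
      continuous_const) (R1 · γ)⟩
  have : Uncountable (ℕ → Bool) := Cardinal.aleph0_lt_mk_iff.1 (by
    simpa using Cardinal.aleph0_lt_continuum)
  have := (cardinalInterFilter_aleph_one_iff (l := (cocountable : Filter (ℕ → Bool)))).1 inferInstance
  have : (cocountable : Filter (ℕ → Bool)).NeBot := ⟨fun e => not_countable_univ (α := ℕ → Bool)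
    (compl_empty ▸ mem_cocountable.1 (empty_mem_iff_bot.2 e))⟩
  obtain ⟨w, w1, w2⟩ := MP_d57a60.lind h (f := map (fun γ φ => φ.1 (Φ γ)) cocountable)
    (le_principal_iff.2 (mem_map.2 (univ_mem' fun γ => subset_closure ⟨_, rfl⟩)))
  obtain ⟨U, U1, U2⟩ := mapClusterPt_iff_ultrafilter.1 w2
  obtain ⟨r, -, hr⟩ := isCompact_univ.ultrafilter_le_nhds' U univ_mem
  let y : ℕ → J → I := fun n a => if (a.2 ≠ r ∧ ∀ m < n, a.2 m = r m) ∧ ∀ c ∈ a.1, n ≤ c then 1 else 0
  have y1 : ∀ n, Un (y n) := fun n => unI.2 fun k => (eventually_ge_atTop n).mono fun c e γ => by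
    simp only [y, e, Option.not_mem_none, Option.mem_some_iff, forall_eq', false_imp_iff,
      implies_true, dist_self]
    positivity
  let g : ℕ → C X := fun n => ⟨_, co (.node (fun _ => .leaf) 0 ⟨_, y1 n⟩)⟩
  let ε : C X → C (C (C X)) := fun g => ⟨fun φ => φ.1 g, (continuous_apply g).comp
    continuous_subtype_val⟩
  obtain ⟨Ψ, hΨ⟩ := gd w1 (countable_range fun n => ε (g n))
  obtain ⟨G, G1, G2⟩ := ext den Ψ.2
  let χ' : ℕ → Option ℕ → I := fun n o => if ∀ c ∈ o, n ≤ c then 1 else 0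
  have e1 : ∀ n, G (g n).1 = (dist (χ' n) χ)⁻¹ := fun n => by
    refine (G2 _).trans ((hΨ _ ⟨n, rfl⟩).trans (tendsto_nhds_unique (tendsto_pi_nhds.1 U2 _)
      (tendsto_nhds_of_eventually_eq ?_)))
    filter_upwards [U1 (eventually_cocardinal_ne r), hr
      ((finite_lt_nat n).eventually_all.2 fun m _ => (continuous_apply m).continuousAt.eventually
        (mem_nhds_discrete.2 (mem_singleton (r m))))] with γ a b
    exact congrArg (fun z => (dist z χ)⁻¹) (funext fun o => (projIcc_val _ _).trans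
      (if_congr (and_iff_right ⟨a, b⟩) rfl rfl))
  have e2 : Tendsto χ' atTop (𝓝 χ) := tendsto_pi_nhds.2 fun o => tendsto_nhds_of_eventually_eq (by
    obtain _ | c := o
    · simp [χ', χ]
    · exact (eventually_gt_atTop c).mono fun n e => by simp [χ', χ, e])
  obtain ⟨f, f1, f2⟩ := (isCompact_univ_pi fun _ : X => isCompact_Icc (a := (0 : ℝ))
    (b := 1)).ultrafilter_le_nhds' ((hyperfilter ℕ).map fun n => (g n).1)
      (Ultrafilter.mem_map.2 (univ_mem' fun n x _ => (x.1 _).2))
  have f3 : f ∘ j = 0 := funext fun a => tendsto_nhds_unique (tendsto_pi_nhds.1 f2 (j a))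
    (tendsto_nhds_of_eventually_eq (Nat.hyperfilter_le_atTop (by
      by_cases e : a.2 = r
      · exact Eventually.of_forall fun n => congrArg Subtype.val (if_neg fun l => l.1.1 e)
      · obtain ⟨m, e⟩ := Function.ne_iff.1 e
        exact (eventually_gt_atTop m).mono fun n k => congrArg Subtype.val
          (if_neg fun l => e (l.1.2 m k)))))
  have f4 : f ∈ E := ⟨⟨1, fun x => abs_le.2 ⟨by linarith [(f1 x trivial).1], (f1 x trivial).2⟩⟩,
    f3 ▸ tendsto_const_uniformity⟩
  have := ((tendsto_iff_dist_tendsto_zero.1 e2).mono_left Nat.hyperfilter_le_atTop).mul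
    ((G1 f (gdE f4)).tendsto.comp (tendsto_nhdsWithin_iff.2 ⟨f2, .of_forall fun n =>
      gdE (inE (g n).2)⟩))
  refine zero_ne_one ((zero_mul _).symm.trans (tendsto_nhds_unique this
    (tendsto_nhds_of_eventually_eq (.of_forall fun n => ?_))))
  refine (congrArg _ (e1 n)).trans (mul_inv_cancel₀ fun e => ?_)
  simpa [χ', χ] using congrFun (dist_eq_zero.1 e) (some n)

end Pool.Agent.H.MP_fbd347
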